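import Pool.Agent.TwoPar.Key

set_option autoImplicit false

namespace Pool.Agent.TwoPar

open Finset MvPolynomial Matrix

variable {n m : ℕ}

/-- row of the parallel 2-scene matrix with normals `A` -/
def row {S : Type*} [CommRing S] (A : Fin m → S) (p : Fin n × Fin m) :
    Fin m ⊕ (Fin n ⊕ Fin n) → S :=
  Sum.elim (fun j : Fin m => if j = p.2 then (1 : S) else 0)
            (Sum.elim (fun i : Fin n => if i = p.1 then A p.2 else 0)
              (fun i : Fin n => if i = p.1 then (1 : S) else 0))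

lemma row_dot {S : Type*} [CommRing S] (A : Fin m → S) (p : Fin n × Fin m)
    (v : Fin m ⊕ (Fin n ⊕ Fin n) → S) :
    row A p ⬝ᵥ v = v (Sum.inl p.2) + A p.2 * v (Sum.inr (Sum.inl p.1)) +
      v (Sum.inr (Sum.inr p.1)) := by
  simp [row, dotProduct, Fintype.sum_sum_type, add_assoc]

/-- Over the field of rational functions every solution is trivial. -/
theorem keyK {I : Finset (Fin n × Fin m)} (h4 : Conn4 I)
    (v : Fin m ⊕ (Fin n ⊕ Fin n) → FractionRing (MvPolynomial (Fin m) ℝ))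
    (hsol : ∀ p ∈ I, row (fun j => algebraMap (MvPolynomial (Fin m) ℝ)
      (FractionRing (MvPolynomial (Fin m) ℝ)) (X j)) p ⬝ᵥ v = 0) (i i' : Fin n) :
    v (Sum.inr (Sum.inl i)) = v (Sum.inr (Sum.inl i')) ∧
      v (Sum.inr (Sum.inr i)) = v (Sum.inr (Sum.inr i')) := by
  obtain ⟨b, hb⟩ := IsLocalization.exist_integer_multiples_of_finite
    (nonZeroDivisors (MvPolynomial (Fin m) ℝ)) v
  choose u hu using hb
  have hb0 : algebraMap (MvPolynomial (Fin m) ℝ) (FractionRing (MvPolynomial (Fin m) ℝ))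
      (b : MvPolynomial (Fin m) ℝ) ≠ 0 := by
    intro h
    have := (IsFractionRing.injective (MvPolynomial (Fin m) ℝ)
      (FractionRing (MvPolynomial (Fin m) ℝ))) (h.trans (map_zero _).symm)
    exact nonZeroDivisors.ne_zero b.2 this
  have hu' : ∀ k, algebraMap (MvPolynomial (Fin m) ℝ) (FractionRing (MvPolynomial (Fin m) ℝ))
      (u k) = algebraMap (MvPolynomial (Fin m) ℝ) (FractionRing (MvPolynomial (Fin m) ℝ))
      (b : MvPolynomial (Fin m) ℝ) * v k := by
    intro k
    rw [hu k, Algebra.smul_def]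
  have hk := key h4 (fun i => u (Sum.inr (Sum.inl i))) (fun i => u (Sum.inr (Sum.inr i)))
    (fun j => u (Sum.inl j)) (by
      intro p hp
      apply IsFractionRing.injective (MvPolynomial (Fin m) ℝ)
        (FractionRing (MvPolynomial (Fin m) ℝ))
      have := hsol p hp
      rw [row_dot] at this
      rw [map_add, map_add, map_mul, hu', hu', hu', map_zero]
      linear_combination (algebraMap (MvPolynomial (Fin m) ℝ)
        (FractionRing (MvPolynomial (Fin m) ℝ)) (b : MvPolynomial (Fin m) ℝ)) * this) i i'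
  refine ⟨?_, ?_⟩
  · apply mul_left_cancel₀ hb0
    rw [← hu', ← hu']
    exact congrArg _ hk.1
  · apply mul_left_cancel₀ hb0
    rw [← hu', ← hu']
    exact congrArg _ hk.2

/-- the matrix with two extra rows pinning vertex `i0`. -/
def M {S : Type*} [CommRing S] (I : Finset (Fin n × Fin m)) (i0 : Fin n) (A : Fin m → S) :
    Matrix (I ⊕ (Unit ⊕ Unit)) (Fin m ⊕ (Fin n ⊕ Fin n)) S :=
  Matrix.of (Sum.elim (fun p => row A p.1)
    (Sum.elim (fun _ => Pi.single (Sum.inr (Sum.inl i0)) 1)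
      (fun _ => Pi.single (Sum.inr (Sum.inr i0)) 1)))

section Mapply
variable {S : Type*} [CommRing S] (I : Finset (Fin n × Fin m)) (i0 : Fin n) (A : Fin m → S)

lemma M_inl (p : I) (k) : M I i0 A (Sum.inl p) k = row A p.1 k := rfl
lemma M_inr_inl (u : Unit) (k) :
    M I i0 A (Sum.inr (Sum.inl u)) k =
      (Pi.single (Sum.inr (Sum.inl i0)) 1 : Fin m ⊕ (Fin n ⊕ Fin n) → S) k := rfl
lemma M_inr_inr (u : Unit) (k) :
    M I i0 A (Sum.inr (Sum.inr u)) k =
      (Pi.single (Sum.inr (Sum.inr i0)) 1 : Fin m ⊕ (Fin n ⊕ Fin n) → S) k := rfl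

lemma row_inl (p : Fin n × Fin m) (j : Fin m) :
    row A p (Sum.inl j) = if j = p.2 then (1 : S) else 0 := rfl
lemma row_inr_inl (p : Fin n × Fin m) (i : Fin n) :
    row A p (Sum.inr (Sum.inl i)) = if i = p.1 then A p.2 else 0 := rfl
lemma row_inr_inr (p : Fin n × Fin m) (i : Fin n) :
    row A p (Sum.inr (Sum.inr i)) = if i = p.1 then (1 : S) else 0 := rfl

end Mapply

lemma M_map {S T : Type*} [CommRing S] [CommRing T] (I : Finset (Fin n × Fin m)) (i0 : Fin n)
    (A : Fin m → S) (f : S →+* T) : (M I i0 A).map f = M I i0 (fun j => f (A j)) := by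
  ext r k
  rw [Matrix.map_apply]
  rcases r with p | r | r
  · rw [M_inl, M_inl]
    rcases k with j | i | i
    · rw [row_inl, row_inl]; split_ifs <;> simp
    · rw [row_inr_inl, row_inr_inl]; split_ifs <;> simp
    · rw [row_inr_inr, row_inr_inr]; split_ifs <;> simp
  · rw [M_inr_inl, M_inr_inl, Pi.single_apply, Pi.single_apply]
    split_ifs <;> simp
  · rw [M_inr_inr, M_inr_inr, Pi.single_apply, Pi.single_apply]
    split_ifs <;> simp

lemma M_mulVec_eq_zero {S : Type*} [CommRing S] {I : Finset (Fin n × Fin m)} {i0 : Fin n}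
    {A : Fin m → S} {v : Fin m ⊕ (Fin n ⊕ Fin n) → S} :
    (M I i0 A).mulVec v = 0 ↔ (∀ p ∈ I, row A p ⬝ᵥ v = 0) ∧ v (Sum.inr (Sum.inl i0)) = 0 ∧
      v (Sum.inr (Sum.inr i0)) = 0 := by
  constructor
  · intro h
    refine ⟨fun p hp => congrFun h (Sum.inl ⟨p, hp⟩), ?_, ?_⟩
    · simpa [M, Matrix.mulVec] using congrFun h (Sum.inr (Sum.inl ()))
    · simpa [M, Matrix.mulVec] using congrFun h (Sum.inr (Sum.inr ()))
  · rintro ⟨h1, h2, h3⟩
    ext r
    rcases r with p | r | r
    · exact h1 p.1 p.2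
    · simpa [M, Matrix.mulVec] using h2
    · simpa [M, Matrix.mulVec] using h3

/-- There are real normals for which only trivial solutions exist. -/
theorem exists_generic {I : Finset (Fin n × Fin m)} (h4 : Conn4 I) (i0 : Fin n) :
    ∃ B : Fin m → ℝ, ∀ v : Fin m ⊕ (Fin n ⊕ Fin n) → ℝ,
      (∀ p ∈ I, row B p ⬝ᵥ v = 0) → v (Sum.inr (Sum.inl i0)) = 0 →
      v (Sum.inr (Sum.inr i0)) = 0 → v = 0 := by
  classical
  set K := FractionRing (MvPolynomial (Fin m) ℝ) with hK
  set t : Fin m → MvPolynomial (Fin m) ℝ := fun j => X j with ht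
  set MK : Matrix (I ⊕ (Unit ⊕ Unit)) (Fin m ⊕ (Fin n ⊕ Fin n)) K :=
    M I i0 (fun j => algebraMap (MvPolynomial (Fin m) ℝ) K (X j)) with hMK
  have hMKt : (M I i0 t).map (algebraMap _ K) = MK := by
    rw [M_map]
  have hker : LinearMap.ker (Matrix.toLin' MK) = ⊥ := by
    rw [LinearMap.ker_eq_bot']
    intro v hv
    rw [Matrix.toLin'_apply, M_mulVec_eq_zero] at hv
    obtain ⟨h1, h2, h3⟩ := hv
    have hx : ∀ i, v (Sum.inr (Sum.inl i)) = 0 := fun i => (keyK h4 v h1 i i0).1.trans h2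
    have hy : ∀ i, v (Sum.inr (Sum.inr i)) = 0 := fun i => (keyK h4 v h1 i i0).2.trans h3
    ext k
    rcases k with j | i | i
    · obtain ⟨i, hi⟩ := exists_vertex h4 j
      have := h1 _ hi
      rw [row_dot] at this
      simp only [hx, hy] at this
      simpa using this
    · exact hx i
    · exact hy i
  obtain ⟨g, hg⟩ := LinearMap.exists_leftInverse_of_injective _ hker
  set L : Matrix (Fin m ⊕ (Fin n ⊕ Fin n)) (I ⊕ (Unit ⊕ Unit)) K := LinearMap.toMatrix' g with hL
  have hLM : L * MK = 1 := by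
    have := congrArg LinearMap.toMatrix' hg
    rw [LinearMap.toMatrix'_comp, LinearMap.toMatrix'_toLin', LinearMap.toMatrix'_id] at this
    exact this
  obtain ⟨b, hb⟩ := IsLocalization.exist_integer_multiples_of_finite
    (nonZeroDivisors (MvPolynomial (Fin m) ℝ))
    (fun q : (Fin m ⊕ (Fin n ⊕ Fin n)) × (I ⊕ (Unit ⊕ Unit)) => L q.1 q.2)
  choose u hu using hb
  set L' : Matrix (Fin m ⊕ (Fin n ⊕ Fin n)) (I ⊕ (Unit ⊕ Unit)) (MvPolynomial (Fin m) ℝ) :=
    Matrix.of (fun a c => u (a, c)) with hL'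
  have hLL : L'.map (algebraMap _ K) = (b : MvPolynomial (Fin m) ℝ) • L := by
    ext a c
    simp only [hL', Matrix.map_apply, Matrix.of_apply, Matrix.smul_apply]
    exact hu (a, c)
  have hprod : L' * M I i0 t = (b : MvPolynomial (Fin m) ℝ) • (1 : Matrix _ _ _) := by
    have hinj : Function.Injective (fun N : Matrix (Fin m ⊕ (Fin n ⊕ Fin n))
        (Fin m ⊕ (Fin n ⊕ Fin n)) (MvPolynomial (Fin m) ℝ) => N.map (algebraMap _ K)) :=
      Matrix.map_injective (IsFractionRing.injective _ K)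
    apply hinj
    simp only
    rw [Matrix.map_mul, hLL, hMKt, Matrix.smul_mul, hLM]
    ext a c
    rw [Matrix.smul_apply, Matrix.map_apply, Matrix.smul_apply, smul_eq_mul, map_mul,
      Algebra.smul_def]
    congr 1
    by_cases hac : a = c
    · subst hac; simp
    · simp [hac]
  have hb0 : (b : MvPolynomial (Fin m) ℝ) ≠ 0 := nonZeroDivisors.ne_zero b.2
  obtain ⟨B, hB⟩ : ∃ B : Fin m → ℝ, MvPolynomial.eval B (b : MvPolynomial (Fin m) ℝ) ≠ 0 := by
    by_contra hcon
    push Not at hcon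
    apply hb0
    apply MvPolynomial.funext
    intro x
    rw [hcon x, map_zero]
  refine ⟨B, fun v hv h2 h3 => ?_⟩
  have hev : (L'.map (MvPolynomial.eval B)) * M I i0 B =
      (MvPolynomial.eval B (b : MvPolynomial (Fin m) ℝ)) • (1 : Matrix _ _ ℝ) := by
    have h := congrArg (fun N : Matrix (Fin m ⊕ (Fin n ⊕ Fin n))
        (Fin m ⊕ (Fin n ⊕ Fin n)) (MvPolynomial (Fin m) ℝ) => N.map (MvPolynomial.eval B)) hprod
    rw [Matrix.map_mul, M_map] at h
    have ht' : (fun j => MvPolynomial.eval B (t j)) = B := by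
      ext j
      simp [ht]
    rw [ht'] at h
    rw [h]
    ext a c
    rw [Matrix.map_apply, Matrix.smul_apply, Matrix.smul_apply, smul_eq_mul, smul_eq_mul, map_mul]
    congr 1
    by_cases hac : a = c
    · subst hac; simp
    · simp [hac]
  have hM0 : (M I i0 B).mulVec v = 0 := M_mulVec_eq_zero.2 ⟨hv, h2, h3⟩
  have h5 : ((L'.map (MvPolynomial.eval B)) * M I i0 B).mulVec v = 0 := by
    rw [← Matrix.mulVec_mulVec, hM0, Matrix.mulVec_zero]
  rw [hev, Matrix.smul_mulVec, Matrix.one_mulVec] at h5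
  exact (smul_eq_zero.1 h5).resolve_left hB

end Pool.Agent.TwoPar
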