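import Mathlib

set_option autoImplicit false

namespace Pool.Agent.TwoPar

open Finset

variable {n m : ℕ}

/-- The bipartite incidence graph of a set of incidences. -/
def G (I : Finset (Fin n × Fin m)) : SimpleGraph (Fin n ⊕ Fin m) :=
  SimpleGraph.fromRel (fun a b : Fin n ⊕ Fin m => ∃ p ∈ I, a = Sum.inl p.1 ∧ b = Sum.inr p.2)

/-- Four-connectivity of the incidence graph. -/
def Conn4 (I : Finset (Fin n × Fin m)) : Prop :=
  4 < n + m ∧ ∀ X : Finset (Fin n ⊕ Fin m), X.card < 4 →
      ((G I).induce ((↑X : Set (Fin n ⊕ Fin m))ᶜ)).Connected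

lemma adj_cases {I : Finset (Fin n × Fin m)} {a b : Fin n ⊕ Fin m} (h : (G I).Adj a b) :
    (∃ i j, (i, j) ∈ I ∧ a = Sum.inl i ∧ b = Sum.inr j) ∨
    (∃ i j, (i, j) ∈ I ∧ b = Sum.inl i ∧ a = Sum.inr j) := by
  unfold G at h
  rw [SimpleGraph.fromRel_adj] at h
  obtain ⟨_, h | h⟩ := h
  · obtain ⟨p, hp, h1, h2⟩ := h
    exact Or.inl ⟨p.1, p.2, hp, h1, h2⟩
  · obtain ⟨p, hp, h1, h2⟩ := h
    exact Or.inr ⟨p.1, p.2, hp, h1, h2⟩

/-- A set closed under adjacency outside `X` is everything outside `X`. -/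
lemma mem_of_closed {I : Finset (Fin n × Fin m)} {X : Set (Fin n ⊕ Fin m)}
    (hc : ((G I).induce Xᶜ).Connected) (S : Set (Fin n ⊕ Fin m))
    (hS : ∀ a b, (G I).Adj a b → a ∉ X → b ∉ X → a ∈ S → b ∈ S)
    {a b : Fin n ⊕ Fin m} (ha : a ∉ X) (hb : b ∉ X) (haS : a ∈ S) : b ∈ S := by
  have hr : ((G I).induce Xᶜ).Reachable ⟨a, ha⟩ ⟨b, hb⟩ := hc.preconnected _ _
  obtain ⟨w⟩ := hr
  have key : ∀ (u v : (Xᶜ : Set (Fin n ⊕ Fin m))), ((G I).induce Xᶜ).Walk u v →
      (u : Fin n ⊕ Fin m) ∈ S → (v : Fin n ⊕ Fin m) ∈ S := by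
    intro u v w
    induction w with
    | nil => exact id
    | @cons u v w hadj _ ih =>
      intro hu
      refine ih (hS _ _ ?_ u.2 v.2 hu)
      simpa using hadj
  exact key _ _ w haS

/-- every face is incident with some vertex -/
lemma exists_vertex {I : Finset (Fin n × Fin m)} (h4 : Conn4 I) (j : Fin m) :
    ∃ i, (i, j) ∈ I := by
  by_contra hcon
  push Not at hcon
  obtain ⟨h1, h2⟩ := h4
  have hc := h2 ∅ (by simp)
  have hall : ∀ b : Fin n ⊕ Fin m, b = Sum.inr j := by
    intro b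
    have := mem_of_closed hc {Sum.inr j} (a := Sum.inr j) (b := b) ?_ (by simp) (by simp) (by simp)
    · simpa using this
    · intro a b hab _ _ ha
      simp only [Set.mem_singleton_iff] at ha
      subst ha
      rcases adj_cases hab with ⟨i, j', hij, h, _⟩ | ⟨i, j', hij, _, h⟩
      · cases h
      · simp only [Sum.inr.injEq] at h
        subst h
        exact absurd hij (hcon i)
  have hcard : Fintype.card (Fin n ⊕ Fin m) ≤ 1 := by
    rw [Fintype.card_le_one_iff]
    intro a b
    rw [hall a, hall b]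
  simp at hcard
  omega

/-- every vertex is incident with some face -/
lemma exists_face {I : Finset (Fin n × Fin m)} (h4 : Conn4 I) (i : Fin n) :
    ∃ j, (i, j) ∈ I := by
  by_contra hcon
  push Not at hcon
  obtain ⟨h1, h2⟩ := h4
  have hc := h2 ∅ (by simp)
  have hall : ∀ b : Fin n ⊕ Fin m, b = Sum.inl i := by
    intro b
    have := mem_of_closed hc {Sum.inl i} (a := Sum.inl i) (b := b) ?_ (by simp) (by simp) (by simp)
    · simpa using this
    · intro a b hab _ _ ha
      simp only [Set.mem_singleton_iff] at ha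
      subst ha
      rcases adj_cases hab with ⟨i', j', hij, h, _⟩ | ⟨i', j', hij, _, h⟩
      · simp only [Sum.inl.injEq] at h
        subst h
        exact absurd hij (hcon j')
      · cases h
  have hcard : Fintype.card (Fin n ⊕ Fin m) ≤ 1 := by
    rw [Fintype.card_le_one_iff]
    intro a b
    rw [hall a, hall b]
  simp at hcard
  omega

lemma n_pos {I : Finset (Fin n × Fin m)} (h4 : Conn4 I) : 0 < n := by
  rcases Nat.eq_zero_or_pos n with h0 | h0
  · exfalso
    subst h0
    have : 0 < m := by have := h4.1; omega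
    obtain ⟨i, _⟩ := exists_vertex h4 ⟨0, this⟩
    exact i.elim0
  · exact h0

section count

variable {C : Type*} [Fintype C] [DecidableEq C]

/-- faces touched by class `c`. -/
def N (I : Finset (Fin n × Fin m)) (cl : Fin n → C) (c : C) : Finset (Fin m) :=
  Finset.univ.filter (fun j => ∃ i, cl i = c ∧ (i, j) ∈ I)

omit [Fintype C] in
lemma mem_N {I : Finset (Fin n × Fin m)} {cl : Fin n → C} {c : C} {j : Fin m} :
    j ∈ N I cl c ↔ ∃ i, cl i = c ∧ (i, j) ∈ I := by
  simp [N]

/-- boundary faces of class `c` -/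
def bd (I : Finset (Fin n × Fin m)) (cl : Fin n → C) (c : C) : Finset (Fin m) :=
  (N I cl c).filter (fun j => ∃ c', c' ≠ c ∧ j ∈ N I cl c')

lemma four_le_bd {I : Finset (Fin n × Fin m)} (h4 : Conn4 I) (cl : Fin n → C)
    (hsurj : Function.Surjective cl) (c : C) (hne : ∃ c', c' ≠ c) : 4 ≤ (bd I cl c).card := by
  by_contra hlt
  push Not at hlt
  obtain ⟨c', hc'⟩ := hne
  obtain ⟨i0, hi0⟩ := hsurj c
  obtain ⟨i1, hi1⟩ := hsurj c'
  set X : Finset (Fin n ⊕ Fin m) := (bd I cl c).image Sum.inr with hX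
  have hXc : X.card < 4 := lt_of_le_of_lt Finset.card_image_le hlt
  have hc := h4.2 X hXc
  set S : Set (Fin n ⊕ Fin m) :=
    {v | (∃ i, v = Sum.inl i ∧ cl i = c) ∨ (∃ j, v = Sum.inr j ∧ j ∈ N I cl c)} with hS
  have hmem : Sum.inl i1 ∈ S := by
    refine mem_of_closed hc S ?_ (a := Sum.inl i0) (by simp [hX]) (by simp [hX])
      (Or.inl ⟨i0, rfl, hi0⟩)
    intro a b hab ha hb haS
    rcases adj_cases hab with ⟨i, j, hij, h1, h2⟩ | ⟨i, j, hij, h1, h2⟩
    · subst h1 h2
      rcases haS with ⟨i', h, h'⟩ | ⟨j', h, h'⟩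
      · simp only [Sum.inl.injEq] at h
        subst h
        exact Or.inr ⟨j, rfl, mem_N.2 ⟨i, h', hij⟩⟩
      · cases h
    · subst h1 h2
      rcases haS with ⟨i', h, h'⟩ | ⟨j', h, h'⟩
      · cases h
      · simp only [Sum.inr.injEq] at h
        subst h
        refine Or.inl ⟨i, rfl, ?_⟩
        by_contra hcne
        apply ha
        simp only [hX, Finset.coe_image, Set.mem_image, Finset.mem_coe]
        exact ⟨j, by simp only [bd, Finset.mem_filter]; exact ⟨h', cl i, hcne, mem_N.2 ⟨i, rfl, hij⟩⟩, rfl⟩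
  rcases hmem with ⟨i, h, h'⟩ | ⟨j, h, _⟩
  · simp only [Sum.inl.injEq] at h
    subst h
    exact hc' (hi1.symm.trans h')
  · cases h

lemma count {I : Finset (Fin n × Fin m)} (h4 : Conn4 I) (cl : Fin n → C)
    (hsurj : Function.Surjective cl) (hne : 2 ≤ Fintype.card C) :
    2 * Fintype.card C + m ≤ ∑ c : C, (N I cl c).card := by
  classical
  have hnt : Nontrivial C := Fintype.one_lt_card_iff_nontrivial.1 hne
  set d : Fin m → ℕ := fun j => (Finset.univ.filter (fun c : C => j ∈ N I cl c)).card with hd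
  have h1 : ∑ c : C, (N I cl c).card = ∑ j : Fin m, d j := by
    have : ∀ c : C, (N I cl c).card = ∑ j : Fin m, if j ∈ N I cl c then 1 else 0 := by
      intro c
      rw [Finset.card_eq_sum_ones, Finset.sum_ite_mem]
      simp
    simp_rw [this]
    rw [Finset.sum_comm]
    refine Finset.sum_congr rfl fun j _ => ?_
    rw [← Finset.card_filter]
  have h2 : ∑ c : C, (bd I cl c).card = ∑ j : Fin m, if 2 ≤ d j then d j else 0 := by
    have : ∀ c : C, (bd I cl c).card =
        ∑ j : Fin m, if (j ∈ N I cl c ∧ 2 ≤ d j) then 1 else 0 := by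
      intro c
      rw [← Finset.card_filter]
      congr 1
      ext j
      simp only [bd, Finset.mem_filter, Finset.mem_univ, true_and]
      constructor
      · rintro ⟨hj, c', hc', hj'⟩
        refine ⟨hj, ?_⟩
        have : ({c, c'} : Finset C) ⊆ Finset.univ.filter (fun c : C => j ∈ N I cl c) := by
          intro a ha
          simp only [Finset.mem_insert, Finset.mem_singleton] at ha
          rcases ha with rfl | rfl <;> simpa
        calc 2 = ({c, c'} : Finset C).card := (Finset.card_pair hc'.symm).symm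
          _ ≤ _ := Finset.card_le_card this
      · rintro ⟨hj, hj2⟩
        refine ⟨hj, ?_⟩
        have hj2' : 1 < (Finset.univ.filter (fun c : C => j ∈ N I cl c)).card := hj2
        obtain ⟨c', hc', hne'⟩ := Finset.exists_mem_ne hj2' c
        exact ⟨c', hne', by simpa using hc'⟩
    simp_rw [this]
    rw [Finset.sum_comm]
    refine Finset.sum_congr rfl fun j _ => ?_
    split_ifs with h
    · simp only [h, and_true]
      rw [← Finset.card_filter]
    · simp [h]
  have h3 : 4 * Fintype.card C ≤ ∑ c : C, (bd I cl c).card := by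
    calc 4 * Fintype.card C = ∑ _c : C, 4 := by simp [mul_comm]
      _ ≤ _ := Finset.sum_le_sum fun c _ => four_le_bd h4 cl hsurj c (exists_ne c)
  have h4' : ∀ j : Fin m, 1 ≤ d j := by
    intro j
    obtain ⟨i, hi⟩ := exists_vertex h4 j
    rw [hd]
    apply Finset.card_pos.2
    exact ⟨cl i, by simp [mem_N]; exact ⟨i, rfl, hi⟩⟩
  have h5 : ∑ j : Fin m, ((if 2 ≤ d j then d j else 0) + 2) ≤ ∑ j : Fin m, 2 * d j := by
    refine Finset.sum_le_sum fun j _ => ?_
    have := h4' j
    split_ifs with h <;> omega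
  rw [Finset.sum_add_distrib, ← h2, ← Finset.mul_sum, ← h1] at h5
  simp at h5
  omega

end count

end Pool.Agent.TwoPar
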