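import Pool.Agent.TwoPar.Stress

set_option autoImplicit false

namespace Pool.Agent.TwoPar

open Finset MvPolynomial

variable {n m : ℕ}

/-- Sharing graph: two vertices with equal slope meeting a common face. -/
def H (I : Finset (Fin n × Fin m)) (x : Fin n → MvPolynomial (Fin m) ℝ) : SimpleGraph (Fin n) where
  Adj i i' := i ≠ i' ∧ x i = x i' ∧ ∃ j, (i, j) ∈ I ∧ (i', j) ∈ I
  symm := ⟨by
    rintro i i' ⟨h1, h2, j, h3, h4⟩
    exact ⟨h1.symm, h2.symm, j, h4, h3⟩⟩
  loopless := ⟨fun i h => h.1 rfl⟩

/-- Over the polynomial ring every solution is trivial. -/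
theorem key {I : Finset (Fin n × Fin m)} (h4 : Conn4 I) (x y : Fin n → MvPolynomial (Fin m) ℝ)
    (D : Fin m → MvPolynomial (Fin m) ℝ)
    (hsol : ∀ p ∈ I, D p.2 + X p.2 * x p.1 + y p.1 = 0) (i i' : Fin n) :
    x i = x i' ∧ y i = y i' := by
  classical
  have hadj : ∀ a b, (H I x).Adj a b → x a = x b ∧ y a = y b := by
    rintro a b ⟨_, hx, j, h1, h2⟩
    refine ⟨hx, ?_⟩
    have e1 := hsol _ h1
    have e2 := hsol _ h2
    simp only at e1 e2
    rw [hx] at e1
    have : y a - y b = 0 := by
      calc y a - y b = (D j + X j * x b + y a) - (D j + X j * x b + y b) := by ring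
        _ = 0 := by rw [e1, e2, sub_zero]
    exact sub_eq_zero.1 this
  have hreach : ∀ a b, (H I x).Reachable a b → x a = x b ∧ y a = y b := by
    rintro a b ⟨w⟩
    induction w with
    | nil => exact ⟨rfl, rfl⟩
    | cons h _ ih =>
      exact ⟨(hadj _ _ h).1.trans ih.1, (hadj _ _ h).2.trans ih.2⟩
  set C := (H I x).ConnectedComponent with hC
  set cl : Fin n → C := (H I x).connectedComponentMk with hcl
  have hsurj : Function.Surjective cl := by
    intro c
    induction c using SimpleGraph.ConnectedComponent.ind with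
    | _ v => exact ⟨v, rfl⟩
  have : Fintype C := Fintype.ofSurjective cl hsurj
  choose rep hrep using hsurj
  have hsurj : Function.Surjective cl := fun c => ⟨rep c, hrep c⟩
  have hclrep : ∀ a, x a = x (rep (cl a)) ∧ y a = y (rep (cl a)) := by
    intro a
    apply hreach
    rw [← SimpleGraph.ConnectedComponent.eq]
    exact (hrep (cl a)).symm
  by_cases hcard : 2 ≤ Fintype.card C
  · exfalso
    set P : Finset (C × Fin m) := Finset.univ.filter (fun p => p.2 ∈ N I cl p.1) with hP
    have hPcard : P.card = ∑ c : C, (N I cl c).card := by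
      rw [hP, Finset.card_filter, Fintype.sum_prod_type]
      refine Finset.sum_congr rfl fun c _ => ?_
      simp only
      rw [← Finset.card_filter]
      congr 1
      ext j
      simp
    have hcount := count h4 cl hsurj hcard
    rw [← hPcard] at hcount
    have hm : 0 < m := by
      obtain ⟨j, _⟩ := exists_face h4 i
      exact lt_of_le_of_lt (Nat.zero_le _) j.2
    obtain ⟨w, hw, p, hp, hne⟩ := exists_stress P hm hcount
    apply hne
    refine hw.eq_zero (fun c => x (rep c)) (fun c => y (rep c)) D ?_ ?_ p hp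
    · rintro ⟨c, j⟩ hcj
      simp only [hP, Finset.mem_filter, Finset.mem_univ, true_and, mem_N] at hcj
      obtain ⟨a, rfl, ha⟩ := hcj
      have := hsol _ ha
      simp only at this ⊢
      rw [← (hclrep a).1, ← (hclrep a).2]
      exact this
    · intro c c' j hc hc' hx
      simp only [hP, Finset.mem_filter, Finset.mem_univ, true_and, mem_N] at hc hc'
      obtain ⟨a, rfl, ha⟩ := hc
      obtain ⟨b, rfl, hb⟩ := hc'
      rw [← (hclrep a).1, ← (hclrep b).1] at hx
      by_cases hab : a = b
      · rw [hab]
      · rw [hcl]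
        rw [SimpleGraph.ConnectedComponent.eq]
        exact SimpleGraph.Adj.reachable (show (H I x).Adj a b from ⟨hab, hx, j, ha, hb⟩)
  · have hsub : Fintype.card C ≤ 1 := by omega
    rw [Fintype.card_le_one_iff] at hsub
    apply hreach
    rw [← SimpleGraph.ConnectedComponent.eq]
    exact hsub _ _

end Pool.Agent.TwoPar
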