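import Pool.Agent.TwoPar.Comb

set_option autoImplicit false

namespace Pool.Agent.TwoPar

open Finset MvPolynomial

variable {m : ℕ} {C : Type*} [Fintype C] [DecidableEq C]

/-- Self-stresses of the contracted incidence structure with polynomial normals. -/
def IsStress (P : Finset (C × Fin m)) (w : C × Fin m → MvPolynomial (Fin m) ℝ) : Prop :=
  (∀ j, ∑ p ∈ P with p.2 = j, w p = 0) ∧ (∀ c, ∑ p ∈ P with p.1 = c, w p = 0) ∧
    (∀ c, ∑ p ∈ P with p.1 = c, w p * X p.2 = 0)

omit [Fintype C] in
lemma IsStress.smul {P : Finset (C × Fin m)} {w : C × Fin m → MvPolynomial (Fin m) ℝ}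
    (hw : IsStress P w) (a : MvPolynomial (Fin m) ℝ) : IsStress P (fun p => a * w p) := by
  refine ⟨fun j => ?_, fun c => ?_, fun c => ?_⟩
  · rw [← Finset.mul_sum, hw.1 j, mul_zero]
  · rw [← Finset.mul_sum, hw.2.1 c, mul_zero]
  · simp_rw [mul_assoc]
    rw [← Finset.mul_sum, hw.2.2 c, mul_zero]

omit [Fintype C] in
lemma IsStress.sub {P : Finset (C × Fin m)} {w w' : C × Fin m → MvPolynomial (Fin m) ℝ}
    (hw : IsStress P w) (hw' : IsStress P w') : IsStress P (fun p => w p - w' p) := by
  refine ⟨fun j => ?_, fun c => ?_, fun c => ?_⟩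
  · rw [Finset.sum_sub_distrib, hw.1 j, hw'.1 j, sub_zero]
  · rw [Finset.sum_sub_distrib, hw.2.1 c, hw'.2.1 c, sub_zero]
  · simp_rw [sub_mul]
    rw [Finset.sum_sub_distrib, hw.2.2 c, hw'.2.2 c, sub_zero]

lemma IsStress.mul_x {P : Finset (C × Fin m)} {w : C × Fin m → MvPolynomial (Fin m) ℝ}
    (hw : IsStress P w) (x y : C → MvPolynomial (Fin m) ℝ) (D : Fin m → MvPolynomial (Fin m) ℝ)
    (hsol : ∀ p ∈ P, D p.2 + X p.2 * x p.1 + y p.1 = 0) :
    IsStress P (fun p => x p.1 * w p) := by
  refine ⟨fun j0 => ?_, fun c => ?_, fun c => ?_⟩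
  · have h0 : ∑ p ∈ P, w p * pderiv j0 (D p.2 + X p.2 * x p.1 + y p.1) = 0 := by
      refine Finset.sum_eq_zero fun p hp => ?_
      rw [hsol p hp, map_zero, mul_zero]
    have h1 : ∀ p : C × Fin m, w p * pderiv j0 (D p.2 + X p.2 * x p.1 + y p.1) =
        pderiv j0 (D p.2) * w p + (if p.2 = j0 then x p.1 * w p else 0) +
          pderiv j0 (x p.1) * (w p * X p.2) + pderiv j0 (y p.1) * w p := by
      intro p
      rw [map_add, map_add, Derivation.leibniz, pderiv_X]
      by_cases h : p.2 = j0
      · subst h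
        simp only [smul_eq_mul, Pi.single_eq_same, mul_one, if_true]
        ring
      · rw [if_neg h, Pi.single_eq_of_ne h]
        simp only [smul_eq_mul]
        ring
    simp_rw [h1] at h0
    rw [Finset.sum_add_distrib, Finset.sum_add_distrib, Finset.sum_add_distrib] at h0
    have e1 : ∑ p ∈ P, pderiv j0 (D p.2) * w p = 0 := by
      rw [← Finset.sum_fiberwise P (fun p => p.2)]
      refine Finset.sum_eq_zero fun j _ => ?_
      have : ∀ p ∈ P.filter (fun p => p.2 = j), pderiv j0 (D p.2) * w p =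
          pderiv j0 (D j) * w p := by
        intro p hp
        rw [(Finset.mem_filter.1 hp).2]
      rw [Finset.sum_congr rfl this, ← Finset.mul_sum, hw.1 j, mul_zero]
    have e2 : ∑ p ∈ P, pderiv j0 (x p.1) * (w p * X p.2) = 0 := by
      rw [← Finset.sum_fiberwise P (fun p => p.1)]
      refine Finset.sum_eq_zero fun c _ => ?_
      have : ∀ p ∈ P.filter (fun p => p.1 = c), pderiv j0 (x p.1) * (w p * X p.2) =
          pderiv j0 (x c) * (w p * X p.2) := by
        intro p hp
        rw [(Finset.mem_filter.1 hp).2]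
      rw [Finset.sum_congr rfl this, ← Finset.mul_sum, hw.2.2 c, mul_zero]
    have e3 : ∑ p ∈ P, pderiv j0 (y p.1) * w p = 0 := by
      rw [← Finset.sum_fiberwise P (fun p => p.1)]
      refine Finset.sum_eq_zero fun c _ => ?_
      have : ∀ p ∈ P.filter (fun p => p.1 = c), pderiv j0 (y p.1) * w p =
          pderiv j0 (y c) * w p := by
        intro p hp
        rw [(Finset.mem_filter.1 hp).2]
      rw [Finset.sum_congr rfl this, ← Finset.mul_sum, hw.2.1 c, mul_zero]
    rw [e1, e2, e3, zero_add, add_zero, add_zero, ← Finset.sum_filter] at h0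
    exact h0
  · have : ∀ p ∈ P.filter (fun p => p.1 = c), x p.1 * w p = x c * w p := by
      intro p hp
      rw [(Finset.mem_filter.1 hp).2]
    rw [Finset.sum_congr rfl this, ← Finset.mul_sum, hw.2.1 c, mul_zero]
  · have : ∀ p ∈ P.filter (fun p => p.1 = c), x p.1 * w p * X p.2 = x c * (w p * X p.2) := by
      intro p hp
      rw [(Finset.mem_filter.1 hp).2, mul_assoc]
    rw [Finset.sum_congr rfl this, ← Finset.mul_sum, hw.2.2 c, mul_zero]

lemma IsStress.prod {P : Finset (C × Fin m)} {w : C × Fin m → MvPolynomial (Fin m) ℝ}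
    (hw : IsStress P w) (x y : C → MvPolynomial (Fin m) ℝ) (D : Fin m → MvPolynomial (Fin m) ℝ)
    (hsol : ∀ p ∈ P, D p.2 + X p.2 * x p.1 + y p.1 = 0) (s : Finset C) :
    IsStress P (fun p => (∏ c ∈ s, (x p.1 - x c)) * w p) := by
  induction s using Finset.induction_on with
  | empty => simpa using hw
  | insert a s ha ih =>
    have h1 := (ih.mul_x x y D hsol).sub (ih.smul (x a))
    refine (congrArg (IsStress P) (funext fun p => ?_)).mp h1
    rw [Finset.prod_insert ha]
    ring

/-- If a solution separates the classes meeting in each face, all stresses vanish. -/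
lemma IsStress.eq_zero {P : Finset (C × Fin m)} {w : C × Fin m → MvPolynomial (Fin m) ℝ}
    (hw : IsStress P w) (x y : C → MvPolynomial (Fin m) ℝ) (D : Fin m → MvPolynomial (Fin m) ℝ)
    (hsol : ∀ p ∈ P, D p.2 + X p.2 * x p.1 + y p.1 = 0)
    (hsep : ∀ c c' j, (c, j) ∈ P → (c', j) ∈ P → x c = x c' → c = c') :
    ∀ p ∈ P, w p = 0 := by
  rintro ⟨c0, j0⟩ hp
  set s : Finset C := Finset.univ.filter (fun c => c ≠ c0 ∧ (c, j0) ∈ P) with hs
  have h1 := (hw.prod x y D hsol s).1 j0
  rw [Finset.sum_eq_single (c0, j0)] at h1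
  · rcases mul_eq_zero.1 h1 with h | h
    · exfalso
      rw [Finset.prod_eq_zero_iff] at h
      obtain ⟨c, hc, hc'⟩ := h
      simp only [hs, Finset.mem_filter, Finset.mem_univ, true_and] at hc
      exact hc.1 (hsep c c0 j0 hc.2 hp (sub_eq_zero.1 hc').symm)
    · exact h
  · rintro ⟨c, j⟩ hc hne
    simp only [Finset.mem_filter] at hc
    obtain ⟨hc, rfl⟩ := hc
    have hcc : c ≠ c0 := fun h => hne (by rw [h])
    have : ∏ c' ∈ s, (x c - x c') = 0 := by
      apply Finset.prod_eq_zero (i := c)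
      · simp only [hs, Finset.mem_filter, Finset.mem_univ, true_and]
        exact ⟨hcc, hc⟩
      · exact sub_self _
    simp only [this, zero_mul]
  · intro h
    exact absurd (by simpa using hp) h

/-- A nonzero stress exists as soon as there are at least as many rows as columns. -/
lemma exists_stress (P : Finset (C × Fin m)) (hm : 0 < m)
    (hcard : 2 * Fintype.card C + m ≤ P.card) :
    ∃ w : C × Fin m → MvPolynomial (Fin m) ℝ, IsStress P w ∧ ∃ p ∈ P, w p ≠ 0 := by
  classical
  set j0 : Fin m := ⟨0, hm⟩ with hj0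
  set v : P → ({j : Fin m // j ≠ j0} ⊕ (C ⊕ C) → MvPolynomial (Fin m) ℝ) := fun p =>
    Sum.elim (fun j => if p.1.2 = j.1 then 1 else 0)
      (Sum.elim (fun c => if p.1.1 = c then X p.1.2 else 0)
        (fun c => if p.1.1 = c then 1 else 0)) with hv
  have hnli : ¬ LinearIndependent (MvPolynomial (Fin m) ℝ) v := by
    intro hli
    have := hli.fintype_card_le_finrank
    simp only [Fintype.card_coe, Module.finrank_fintype_fun_eq_card, Fintype.card_sum,
      Fintype.card_subtype_compl, Fintype.card_fin, Fintype.card_unique] at this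
    omega
  rw [Fintype.not_linearIndependent_iff] at hnli
  obtain ⟨g, hg, ⟨p0, hp0⟩⟩ := hnli
  set w : C × Fin m → MvPolynomial (Fin m) ℝ := fun p => if h : p ∈ P then g ⟨p, h⟩ else 0 with hw
  have hwg : ∀ p : P, w p.1 = g p := by
    intro p
    simp [hw]
  have hsum : ∀ f : C × Fin m → MvPolynomial (Fin m) ℝ,
      ∑ p : P, g p * f p.1 = ∑ p ∈ P, w p * f p := by
    intro f
    rw [← Finset.sum_coe_sort P]
    exact Finset.sum_congr rfl fun p _ => by rw [hwg]
  have hcoord : ∀ k, ∑ p : P, g p * v p k = 0 := by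
    intro k
    have := congrFun hg k
    simpa [Finset.sum_apply] using this
  have hJ : ∀ j, j ≠ j0 → ∑ p ∈ P with p.2 = j, w p = 0 := by
    intro j hj
    have h := hcoord (Sum.inl ⟨j, hj⟩)
    simp only [hv, Sum.elim_inl] at h
    rw [hsum (fun p => if p.2 = j then 1 else 0)] at h
    simpa [Finset.sum_filter] using h
  have hX : ∀ c, ∑ p ∈ P with p.1 = c, w p * X p.2 = 0 := by
    intro c
    have h := hcoord (Sum.inr (Sum.inl c))
    simp only [hv, Sum.elim_inl, Sum.elim_inr] at h
    rw [hsum (fun p => if p.1 = c then X p.2 else 0)] at h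
    simpa [Finset.sum_filter] using h
  have hY : ∀ c, ∑ p ∈ P with p.1 = c, w p = 0 := by
    intro c
    have h := hcoord (Sum.inr (Sum.inr c))
    simp only [hv, Sum.elim_inr] at h
    rw [hsum (fun p => if p.1 = c then 1 else 0)] at h
    simpa [Finset.sum_filter] using h
  refine ⟨w, ⟨fun j => ?_, hY, hX⟩, p0.1, p0.2, ?_⟩
  · by_cases hj : j = j0
    · subst hj
      have e1 : ∑ p ∈ P, w p = 0 := by
        rw [← Finset.sum_fiberwise P (fun p => p.1)]
        exact Finset.sum_eq_zero fun c _ => hY c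
      rw [← Finset.sum_fiberwise P (fun p => p.2), ← Finset.add_sum_erase _ _ (Finset.mem_univ j0)]
        at e1
      rw [Finset.sum_eq_zero (s := Finset.univ.erase j0), add_zero] at e1
      · exact e1
      · intro j hj
        exact hJ j (Finset.ne_of_mem_erase hj)
    · exact hJ j hj
  · rw [hwg]
    exact hp0

end Pool.Agent.TwoPar
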